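import Pool.Agent.helper797_mt.Fin

/-!
# More than `λ` reals in `H(λ⁺)[A]` for a singular cardinal `λ` of uncountable cofinality
-/

set_option autoImplicit false

namespace Pool.Agent.Results.MP_fa650a_lc.ManyRealsSingular

open Pool.Agent.W868 Pool.Agent.helper797_mt Cardinal

/-- Assume GCH and let `U` be a normal measure on `κ`. Then there are a countable transitive model
`V` of ZFC and GCH, a singular cardinal `lam` of uncountable cofinality in `V` and `A ⊆ lam` such
that, for the least transitive model `W = V[A]` of ZFC that includes `V` and contains `A`: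
`V` and `W` have the same ordinals and the same cardinals, and some set `R ∈ W` of reals, all of which are in
`H(lam⁺)[A]` for `H(lam⁺)` of `V`, has in `W` at least the size of the next cardinal `ν = lam⁺`
(there is in `W` an injection of `ν` into `R`). -/
theorem result (hG : ∀ c : Cardinal.{0}, ℵ₀ ≤ c → 2 ^ c = Order.succ c) (κ : Cardinal.{0})
    (U : Ultrafilter κ.ord.ToType) (hU : IsNormalMeasure κ U) :
    ∃ (V W : Set ZFSet.{0}) (lam A : ZFSet.{0}), V.Countable ∧ IsZFC V ∧ GCH V ∧ SingUnc V lam ∧
      A ⊆ lam ∧ IsExt V A W ∧ (∀ x ∈ W, x.IsOrdinal → x ∈ V) ∧ (∀ c, IsCard V c → IsCard W c) ∧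
      ∃ R ∈ W, (∀ r ∈ R, r ⊆ ZFSet.omega ∧ r ∈ HA V lam A) ∧
        ∃ ν f, IsNextCard W lam ν ∧ f ∈ W ∧ IsInj ν R f :=
  main hG hU

end Pool.Agent.Results.MP_fa650a_lc.ManyRealsSingular
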